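import Mathlib

/-!
Haight's question, positive part: for every measurable `E` of positive measure and almost every
`x > 0` the positive integers `n` with `n x` outside `F(E) = ⋃ r E` have natural density zero.
-/

set_option autoImplicit false

namespace Pool.Agent.KS6_18.HM

open MeasureTheory Filter Topology Finset

/-- `F(E) = ⋃_{r ≥ 1} r E` -/
def F (E : Set ℝ) : Set ℝ := ⋃ r : ℕ, ⋃ _ : 1 ≤ r, (fun x : ℝ => (r : ℝ) * x) '' E

theorem mem_F (E : Set ℝ) (y : ℝ) : y ∈ F E ↔ ∃ r : ℕ, 0 < r ∧ ∃ z ∈ E, y = r * z := by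
  simp only [F, Set.mem_iUnion, Set.mem_image, exists_prop]
  constructor
  · rintro ⟨r, hr, z, hz, h⟩
    exact ⟨r, hr, z, hz, h.symm⟩
  · rintro ⟨r, hr, z, hz, h⟩
    exact ⟨r, hr, z, hz, h.symm⟩

theorem mem_F' (E : Set ℝ) (y : ℝ) : y ∈ F E ↔ ∃ r : ℕ, 0 < r ∧ (1 / (r : ℝ)) * y ∈ E := by
  rw [mem_F]
  constructor
  · rintro ⟨r, hr, z, hz, h⟩
    have : (r : ℝ) ≠ 0 := by exact_mod_cast hr.ne'
    refine ⟨r, hr, ?_⟩
    rw [h, ← mul_assoc, one_div_mul_cancel this, one_mul]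
    exact hz
  · rintro ⟨r, hr, h⟩
    have : (r : ℝ) ≠ 0 := by exact_mod_cast hr.ne'
    exact ⟨r, hr, _, h, by field_simp⟩

theorem F_mul (E : Set ℝ) (x : ℝ) (hx : x ∈ F E) (n : ℕ) (hn : 0 < n) : (n : ℝ) * x ∈ F E := by
  obtain ⟨r, hr, z, hz, hxz⟩ := (mem_F E x).1 hx
  refine (mem_F E _).2 ⟨n * r, by positivity, z, hz, ?_⟩
  rw [hxz]; push_cast; ring

theorem measurable_F (E : Set ℝ) (hE : MeasurableSet E) : MeasurableSet (F E) := by
  have : F E = ⋃ r : ℕ, ⋃ _ : 0 < r, (fun y : ℝ => (1 / (r : ℝ)) * y) ⁻¹' E := by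
    ext y
    rw [mem_F']
    simp
  rw [this]
  refine MeasurableSet.iUnion fun r => MeasurableSet.iUnion fun _ => ?_
  exact (measurable_const_mul _) hE

/-- an interval almost filled by `E` -/
theorem exists_interval (E : Set ℝ) (hE : MeasurableSet E) (hE0 : E ⊆ Set.Ioi 0)
    (hEv : 0 < volume E) (ε : ℝ) (hε : 0 < ε) :
    ∃ a b : ℝ, 0 < a ∧ a < b ∧ b ≤ 2 * a ∧
      volume (Set.Icc a b \ E) ≤ ENNReal.ofReal (ε * (b - a)) := by
  have h1 := Besicovitch.ae_tendsto_measure_inter_div (volume : Measure ℝ) E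
  have h2 := ae_restrict_mem (μ := (volume : Measure ℝ)) hE
  have hne : (volume.restrict E : Measure ℝ) ≠ 0 := by
    intro h0
    rw [Measure.restrict_eq_zero] at h0
    rw [h0] at hEv
    exact lt_irrefl _ hEv
  haveI : (ae (volume.restrict E : Measure ℝ)).NeBot := ae_neBot.2 hne
  obtain ⟨x, hx1, hx2⟩ := (h1.and h2).exists
  have hx0 : 0 < x := hE0 hx2
  obtain ⟨ε', hε'⟩ : ∃ ε', ε' = min ε (1 / 2) := ⟨_, rfl⟩
  have hε'0 : 0 < ε' := by rw [hε']; exact lt_min hε (by norm_num)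
  have hε'1 : ε' ≤ 1 / 2 := by rw [hε']; exact min_le_right _ _
  have hε'2 : ε' ≤ ε := by rw [hε']; exact min_le_left _ _
  have hlt : ENNReal.ofReal (1 - ε') < 1 := by
    rw [← ENNReal.ofReal_one]
    exact (ENNReal.ofReal_lt_ofReal_iff (by norm_num)).2 (by linarith)
  have h3 := hx1.eventually (lt_mem_nhds hlt)
  have h4 : ∀ᶠ r : ℝ in 𝓝[>] 0, r < x / 3 ∧ 0 < r := by
    have h5 : ∀ᶠ r : ℝ in 𝓝[>] 0, r < x / 3 :=
      nhdsWithin_le_nhds (gt_mem_nhds (by positivity))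
    exact h5.and self_mem_nhdsWithin
  obtain ⟨r, hr1, hr2, hr3⟩ := (h3.and h4).exists
  refine ⟨x - r, x + r, by linarith, by linarith, by linarith, ?_⟩
  rw [Real.closedBall_eq_Icc] at hr1
  have hvol : volume (Set.Icc (x - r) (x + r)) = ENNReal.ofReal (2 * r) := by
    rw [Real.volume_Icc]; congr 1; ring
  rw [hvol] at hr1
  have h0 : ENNReal.ofReal (2 * r) ≠ 0 := by
    rw [ne_eq, ENNReal.ofReal_eq_zero]; linarith
  have hlow : ENNReal.ofReal ((1 - ε') * (2 * r)) ≤ volume (E ∩ Set.Icc (x - r) (x + r)) := by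
    rw [ENNReal.ofReal_mul (by linarith)]
    rw [ENNReal.lt_div_iff_mul_lt (Or.inl h0) (Or.inl ENNReal.ofReal_ne_top)] at hr1
    exact hr1.le
  have hsplit : volume (Set.Icc (x - r) (x + r) ∩ E) + volume (Set.Icc (x - r) (x + r) \ E) =
      ENNReal.ofReal (2 * r) := by
    rw [measure_inter_add_sdiff _ hE, hvol]
  rw [Set.inter_comm] at hlow
  have h5 : ENNReal.ofReal ((1 - ε') * (2 * r)) + volume (Set.Icc (x - r) (x + r) \ E) ≤
      ENNReal.ofReal (2 * r) := by
    rw [← hsplit]; gcongr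
  have h6 : ENNReal.ofReal (2 * r) = ENNReal.ofReal ((1 - ε') * (2 * r)) + ENNReal.ofReal (ε' * (2 * r)) := by
    rw [← ENNReal.ofReal_add (by apply mul_nonneg <;> linarith) (by positivity)]
    congr 1; ring
  rw [h6, ENNReal.add_le_add_iff_left ENNReal.ofReal_ne_top] at h5
  refine h5.trans (ENNReal.ofReal_le_ofReal ?_)
  have : x + r - (x - r) = 2 * r := by ring
  rw [this]
  gcongr

/-- convergence in measure -/
theorem conv (E : Set ℝ) (hE : MeasurableSet E) (hE0 : E ⊆ Set.Ioi 0) (hEv : 0 < volume E)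
    (X0 X η : ℝ) (hX0 : 0 < X0) (hX : X0 < X) (hη : 0 < η) :
    ∃ n0 : ℕ, ∀ n ≥ n0, volume {x | x ∈ Set.Icc X0 X ∧ (n : ℝ) * x ∉ F E} ≤ ENNReal.ofReal η := by
  have hXpos : 0 < X := hX0.trans hX
  obtain ⟨ε, hε⟩ : ∃ ε, ε = η * X0 / (4 * X ^ 2) := ⟨_, rfl⟩
  have hε0 : 0 < ε := by rw [hε]; positivity
  obtain ⟨a, b, ha, hab, hb, hvol⟩ := exists_interval E hE hE0 hEv ε hε0
  have hb0 : 0 < b := ha.trans hab
  obtain ⟨G, hG⟩ : ∃ G : Set ℝ, G = Set.Icc a b \ E := ⟨_, rfl⟩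
  rw [← hG] at hvol
  have hGm : MeasurableSet G := by rw [hG]; exact measurableSet_Icc.diff hE
  obtain ⟨n1, hn1⟩ := exists_nat_gt (2 * a * b / (X0 * (b - a)))
  refine ⟨max n1 1, fun n hn => ?_⟩
  have hn1' : (n1:ℝ) ≤ n := by exact_mod_cast le_trans (le_max_left _ _) hn
  have hnpos' : 0 < n := le_trans (le_max_right _ _) hn
  have hnpos : (0:ℝ) < n := by exact_mod_cast hnpos'
  have hba : 0 < b - a := by linarith
  obtain ⟨Rm, hRm⟩ : ∃ Rm, Rm = n * X0 * (b - a) / (2 * a * b) := ⟨_, rfl⟩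
  have hRm0 : 0 < Rm := by rw [hRm]; positivity
  have hRm1 : 1 ≤ Rm := by
    rw [hRm, le_div_iff₀ (by positivity), one_mul]
    have h1 : 2 * a * b / (X0 * (b - a)) < n := by linarith
    rw [div_lt_iff₀ (by positivity)] at h1
    linarith
  obtain ⟨S, hS⟩ : ∃ S, S = Finset.Icc 1 ⌊n * X / a⌋₊ := ⟨_, rfl⟩
  obtain ⟨Bad, hBad⟩ : ∃ Bad : Set ℝ, Bad = {x | x ∈ Set.Icc X0 X ∧ (n : ℝ) * x ∉ F E} := ⟨_, rfl⟩
  rw [← hBad]
  have hBadm : MeasurableSet Bad := by
    rw [hBad]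
    exact measurableSet_Icc.inter (((measurable_const_mul _) (measurable_F E hE)).compl)
  -- pointwise
  have hpt : ∀ x ∈ Bad, ENNReal.ofReal Rm ≤
      ∑ r ∈ S, Set.indicator ((fun x : ℝ => ((n:ℝ) / r) * x) ⁻¹' G) (fun _ => (1:ENNReal)) x := by
    intro x hx
    rw [hBad] at hx
    obtain ⟨⟨hx1, hx2⟩, hxF⟩ := hx
    have hx0 : 0 < x := by linarith
    -- the set of `r`
    have hsub : Finset.Ioc ⌊n * x / b⌋₊ ⌊n * x / a⌋₊ ⊆ S := by
      intro r hr
      rw [Finset.mem_Ioc] at hr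
      rw [hS, Finset.mem_Icc]
      refine ⟨by omega, hr.2.trans (Nat.floor_mono ?_)⟩
      gcongr
    have hind : ∀ r ∈ Finset.Ioc ⌊n * x / b⌋₊ ⌊n * x / a⌋₊,
        Set.indicator ((fun x : ℝ => ((n:ℝ) / r) * x) ⁻¹' G) (fun _ => (1:ENNReal)) x = 1 := by
      intro r hr
      rw [Finset.mem_Ioc] at hr
      have hr0 : 0 < r := by omega
      have hr0' : (0:ℝ) < r := by exact_mod_cast hr0
      apply Set.indicator_of_mem
      show ((n:ℝ) / r) * x ∈ G
      rw [hG]
      have hrb : n * x / b < r := (Nat.floor_lt (by positivity)).1 hr.1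
      have hra : (r:ℝ) ≤ n * x / a := (Nat.le_floor_iff (by positivity)).1 hr.2
      refine ⟨⟨?_, ?_⟩, ?_⟩
      · rw [div_mul_eq_mul_div, le_div_iff₀ hr0']
        rw [le_div_iff₀ ha] at hra
        linarith
      · rw [div_mul_eq_mul_div, div_le_iff₀ hr0']
        rw [div_lt_iff₀ hb0] at hrb
        linarith
      · intro hEE
        apply hxF
        rw [mem_F']
        refine ⟨r, hr0, ?_⟩
        have : 1 / (r:ℝ) * (n * x) = (n:ℝ) / r * x := by ring
        rw [this]; exact hEE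
    calc ENNReal.ofReal Rm ≤ ENNReal.ofReal ((Finset.Ioc ⌊n * x / b⌋₊ ⌊n * x / a⌋₊).card : ℝ) := by
          apply ENNReal.ofReal_le_ofReal
          rw [Nat.card_Ioc]
          have h1 : n * x / a - 1 < (⌊n * x / a⌋₊ : ℝ) := Nat.sub_one_lt_floor _
          have h2 : (⌊n * x / b⌋₊ : ℝ) ≤ n * x / b := Nat.floor_le (by positivity)
          have h3 : ⌊n * x / b⌋₊ ≤ ⌊n * x / a⌋₊ := Nat.floor_mono (by gcongr)
          rw [Nat.cast_sub h3]
          have h4 : n * x / a - n * x / b = n * x * (b - a) / (a * b) := by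
            field_simp
          have h5 : 2 * Rm ≤ n * x * (b - a) / (a * b) := by
            rw [hRm]
            have : 2 * (n * X0 * (b - a) / (2 * a * b)) = n * X0 * (b - a) / (a * b) := by
              field_simp
            rw [this]
            gcongr
          linarith
      _ = ∑ r ∈ Finset.Ioc ⌊n * x / b⌋₊ ⌊n * x / a⌋₊, (1:ENNReal) := by
          rw [Finset.sum_const, nsmul_eq_mul, mul_one, ENNReal.ofReal_natCast]
      _ = ∑ r ∈ Finset.Ioc ⌊n * x / b⌋₊ ⌊n * x / a⌋₊,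
          Set.indicator ((fun x : ℝ => ((n:ℝ) / r) * x) ⁻¹' G) (fun _ => (1:ENNReal)) x :=
          (Finset.sum_congr rfl hind).symm
      _ ≤ _ := Finset.sum_le_sum_of_subset hsub
  -- integrate
  have h1 : ENNReal.ofReal Rm * volume Bad ≤
      ∑ r ∈ S, volume ((fun x : ℝ => ((n:ℝ) / r) * x) ⁻¹' G) := by
    calc ENNReal.ofReal Rm * volume Bad = ∫⁻ x in Bad, ENNReal.ofReal Rm := by
          rw [setLIntegral_const]
      _ ≤ ∫⁻ x in Bad, ∑ r ∈ S,
          Set.indicator ((fun x : ℝ => ((n:ℝ) / r) * x) ⁻¹' G) (fun _ => (1:ENNReal)) x := by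
          apply setLIntegral_mono' hBadm hpt
      _ ≤ ∫⁻ x, ∑ r ∈ S,
          Set.indicator ((fun x : ℝ => ((n:ℝ) / r) * x) ⁻¹' G) (fun _ => (1:ENNReal)) x :=
          setLIntegral_le_lintegral _ _
      _ = ∑ r ∈ S, volume ((fun x : ℝ => ((n:ℝ) / r) * x) ⁻¹' G) := by
          rw [lintegral_finsetSum' _ (fun r _ =>
            (measurable_const.indicator ((measurable_const_mul _) hGm)).aemeasurable)]
          refine Finset.sum_congr rfl fun r _ => ?_
          rw [lintegral_indicator ((measurable_const_mul _) hGm), setLIntegral_const, one_mul]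
  have h2 : ∑ r ∈ S, volume ((fun x : ℝ => ((n:ℝ) / r) * x) ⁻¹' G) ≤
      ENNReal.ofReal ((n * X / a) * ((X / a) * (ε * (b - a)))) := by
    calc ∑ r ∈ S, volume ((fun x : ℝ => ((n:ℝ) / r) * x) ⁻¹' G)
        ≤ ∑ r ∈ S, ENNReal.ofReal ((X / a) * (ε * (b - a))) := by
          apply Finset.sum_le_sum
          intro r hr
          rw [hS, Finset.mem_Icc] at hr
          have hr0 : (0:ℝ) < r := by
            have : 0 < r := hr.1
            exact_mod_cast this
          have hra : (r:ℝ) ≤ n * X / a := (Nat.le_floor_iff (by positivity)).1 hr.2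
          rw [Real.volume_preimage_mul_left (by positivity), ENNReal.ofReal_mul (by positivity)]
          apply mul_le_mul' _ hvol
          apply ENNReal.ofReal_le_ofReal
          rw [abs_of_pos (by positivity), inv_div, div_le_div_iff₀ hnpos ha]
          rw [le_div_iff₀ ha] at hra
          linarith
      _ = ENNReal.ofReal (S.card * ((X / a) * (ε * (b - a)))) := by
          rw [Finset.sum_const, nsmul_eq_mul, ENNReal.ofReal_mul (Nat.cast_nonneg _),
            ENNReal.ofReal_natCast]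
      _ ≤ _ := by
          apply ENNReal.ofReal_le_ofReal
          apply mul_le_mul_of_nonneg_right _ (by positivity)
          rw [hS, Nat.card_Icc, Nat.add_sub_cancel]
          exact Nat.floor_le (by positivity)
  have h3 := h1.trans h2
  have h4 : (n * X / a) * ((X / a) * (ε * (b - a))) ≤ Rm * η := by
    have e1 : Rm * η = n * X0 * (b - a) / (2 * a * b) * η := by rw [hRm]
    have e2 : (n * X / a) * ((X / a) * (ε * (b - a))) = n * X0 * (b - a) / (4 * a * a) * η := by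
      rw [hε]; field_simp
    rw [e1, e2]
    apply mul_le_mul_of_nonneg_right _ hη.le
    apply div_le_div_of_nonneg_left (by positivity) (by positivity)
    nlinarith
  have h5 : ENNReal.ofReal Rm * volume Bad ≤ ENNReal.ofReal Rm * ENNReal.ofReal η := by
    rw [← ENNReal.ofReal_mul hRm0.le]
    exact h3.trans (ENNReal.ofReal_le_ofReal h4)
  exact (ENNReal.mul_le_mul_iff_right (by rw [ne_eq, ENNReal.ofReal_eq_zero]; linarith)
    ENNReal.ofReal_ne_top).1 h5

end Pool.Agent.KS6_18.HM
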