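import Pool.Agent.KS6_18.HM.Pos

/-!
Haight's question, positive part: natural density.
-/

set_option autoImplicit false

namespace Pool.Agent.KS6_18.HM

open MeasureTheory Filter Topology Finset

/-- if the sum of `1 / p` over the primes `p` with `p x ∈ F(E)` diverges, then the integers `n`
with `n x ∉ F(E)` have natural density zero -/
theorem density_zero (E : Set ℝ) (x : ℝ)
    (hx : ¬ Summable (Set.indicator {p : ℕ | p.Prime ∧ (p:ℝ) * x ∈ F E} (fun p : ℕ => 1 / (p:ℝ)))) :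
    Tendsto (fun N : ℕ => (Set.ncard {n : ℕ | 1 ≤ n ∧ n ≤ N ∧ (n:ℝ) * x ∉ F E} : ℝ) / N) atTop (𝓝 0) := by
  classical
  rw [Metric.tendsto_atTop]
  intro η hη
  -- a finite set of primes
  obtain ⟨P, hP⟩ : ∃ P : Finset ℕ, Real.log (2 / η) <
      ∑ p ∈ P, Set.indicator {p : ℕ | p.Prime ∧ (p:ℝ) * x ∈ F E} (fun p : ℕ => 1 / (p:ℝ)) p := by
    by_contra hcon
    push Not at hcon
    exact hx (summable_of_sum_le (fun p => Set.indicator_nonneg (fun _ _ => by positivity) _) hcon)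
  obtain ⟨Q, hQ⟩ : ∃ Q : Finset ℕ, Q = P.filter (fun p : ℕ => p.Prime ∧ (p:ℝ) * x ∈ F E) := ⟨_, rfl⟩
  have hQp : ∀ p ∈ Q, p.Prime := fun p hp => by rw [hQ, Finset.mem_filter] at hp; exact hp.2.1
  have hQF : ∀ p ∈ Q, (p:ℝ) * x ∈ F E := fun p hp => by rw [hQ, Finset.mem_filter] at hp; exact hp.2.2
  have hQsum : Real.log (2 / η) < ∑ p ∈ Q, 1 / (p:ℝ) := by
    rw [hQ, Finset.sum_filter]
    refine lt_of_lt_of_eq hP (Finset.sum_congr rfl fun p _ => ?_)
    rw [Set.indicator_apply]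
    rfl
  obtain ⟨L, hL⟩ : ∃ L, L = ∏ p ∈ Q, p := ⟨_, rfl⟩
  have hLpf : L.primeFactors = Q := by rw [hL]; exact Nat.primeFactors_prod hQp
  have hL0 : L ≠ 0 := by
    rw [hL, Finset.prod_ne_zero_iff]
    intro p hp; exact (hQp p hp).ne_zero
  have hLpos : (0:ℝ) < L := by
    have : 0 < L := Nat.pos_of_ne_zero hL0
    exact_mod_cast this
  -- the totient
  have htot : (L.totient : ℝ) ≤ L * (η / 2) := by
    have h1 : (L.totient : ℝ) = L * ∏ p ∈ Q, (1 - (p:ℝ)⁻¹) := by
      have := Nat.totient_eq_mul_prod_factors L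
      rw [hLpf] at this
      have h2 : ((L.totient : ℚ) : ℝ) = ((L * ∏ p ∈ Q, (1 - (p:ℚ)⁻¹) : ℚ) : ℝ) := by rw [this]
      push_cast at h2
      exact h2
    rw [h1]
    apply mul_le_mul_of_nonneg_left _ hLpos.le
    calc ∏ p ∈ Q, (1 - (p:ℝ)⁻¹) ≤ ∏ p ∈ Q, Real.exp (-(1 / (p:ℝ))) := by
          apply Finset.prod_le_prod
          · intro p hp
            have h2 : (1:ℝ) ≤ p := by exact_mod_cast (hQp p hp).one_le
            rw [sub_nonneg]
            exact inv_le_one_of_one_le₀ h2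
          · intro p _
            have := Real.add_one_le_exp (-(1 / (p:ℝ)))
            rw [one_div] at this ⊢
            linarith
      _ = Real.exp (-∑ p ∈ Q, 1 / (p:ℝ)) := by
          rw [← Finset.sum_neg_distrib, Real.exp_sum]
      _ ≤ Real.exp (-Real.log (2 / η)) := by
          rw [Real.exp_le_exp]; linarith
      _ = η / 2 := by
          rw [Real.exp_neg, Real.exp_log (by positivity), inv_div]
  obtain ⟨N0, hN0⟩ := exists_nat_gt (L : ℝ)
  refine ⟨max N0 1, fun N hN => ?_⟩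
  have hN1 : (N0:ℝ) ≤ N := by exact_mod_cast le_trans (le_max_left _ _) hN
  have hNpos : (0:ℝ) < N := by
    have : 0 < N := le_trans (le_max_right _ _) hN
    exact_mod_cast this
  rw [Real.dist_eq, sub_zero, abs_of_nonneg (by positivity), div_lt_iff₀ hNpos]
  have hsub : {n : ℕ | 1 ≤ n ∧ n ≤ N ∧ (n:ℝ) * x ∉ F E} ⊆
      ((Finset.Ico 1 (1 + N)).filter (fun n => L.Coprime n) : Finset ℕ) := by
    rintro n ⟨h1, h2, h3⟩
    rw [Finset.mem_coe, Finset.mem_filter, Finset.mem_Ico]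
    refine ⟨⟨h1, by omega⟩, ?_⟩
    rw [hL]
    apply Nat.Coprime.prod_left
    intro p hp
    rw [(hQp p hp).coprime_iff_not_dvd]
    rintro ⟨m, rfl⟩
    apply h3
    have hm : 0 < m := Nat.pos_of_ne_zero (by rintro rfl; simp at h1)
    have := F_mul E _ (hQF p hp) m hm
    have e : ((p * m : ℕ) : ℝ) * x = (m:ℝ) * ((p:ℝ) * x) := by push_cast; ring
    rw [e]; exact this
  have hcard : (Set.ncard {n : ℕ | 1 ≤ n ∧ n ≤ N ∧ (n:ℝ) * x ∉ F E} : ℝ) ≤ L.totient * (N / L + 1) := by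
    have h1 := Set.ncard_le_ncard hsub (Finset.finite_toSet _)
    rw [Set.ncard_coe_finset] at h1
    have h2 := Nat.Ico_filter_coprime_le 1 N hL0
    have h3 : (Set.ncard {n : ℕ | 1 ≤ n ∧ n ≤ N ∧ (n:ℝ) * x ∉ F E} : ℝ) ≤
        ((L.totient * (N / L + 1) : ℕ) : ℝ) := by exact_mod_cast h1.trans h2
    refine h3.trans ?_
    push_cast
    apply mul_le_mul_of_nonneg_left _ (Nat.cast_nonneg _)
    have : ((N / L : ℕ) : ℝ) ≤ (N:ℝ) / L := Nat.cast_div_le
    linarith
  have hNL : (L:ℝ) < N := by linarith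
  calc (Set.ncard {n : ℕ | 1 ≤ n ∧ n ≤ N ∧ (n:ℝ) * x ∉ F E} : ℝ) ≤ L.totient * (N / L + 1) := hcard
    _ ≤ (L * (η / 2)) * (N / L + 1) := by gcongr
    _ = η / 2 * N + η / 2 * L := by field_simp
    _ < η * N := by
        have : η / 2 * L < η / 2 * N := mul_lt_mul_of_pos_left hNL (by positivity)
        linarith

theorem ae_not_summable (E : Set ℝ) (hE : MeasurableSet E) (hE0 : E ⊆ Set.Ioi 0)
    (hEv : 0 < volume E) (X0 X : ℝ) (hX0 : 0 < X0) (hX : X0 < X) :
    volume {x | x ∈ Set.Icc X0 X ∧ Summable (Set.indicator {p : ℕ | p.Prime ∧ (p:ℝ) * x ∈ F E}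
      (fun p : ℕ => 1 / (p:ℝ)))} = 0 := by
  classical
  obtain ⟨w, hw⟩ : ∃ w : ℕ → ENNReal, w = fun p => if p.Prime then ENNReal.ofReal (1 / (p:ℝ)) else 0 := ⟨_, rfl⟩
  have hw' : ∀ p : ℕ, w p = if p.Prime then ENNReal.ofReal (1 / (p:ℝ)) else 0 := fun p => by rw [hw]
  have hFm := measurable_F E hE
  have hpm : ∀ p : ℕ, MeasurableSet {x : ℝ | (p:ℝ) * x ∈ F E} := fun p => (measurable_const_mul _) hFm
  obtain ⟨g, hg⟩ : ∃ g : ℝ → ENNReal, g = fun x => ∑' p : ℕ, w p * Set.indicator {x : ℝ | (p:ℝ) * x ∈ F E}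
    (fun _ => (1:ENNReal)) x := ⟨_, rfl⟩
  have hgm : Measurable g := by
    rw [hg]
    exact Measurable.ennreal_tsum fun p => (measurable_const.indicator (hpm p)).const_mul _
  -- the tails of the sum of the reciprocals of the primes
  have hwdiv : ∀ n0 : ℕ, ∑' p : ℕ, w (p + n0) = ⊤ := by
    intro n0
    by_contra hcon
    have h1 : Summable (fun p : ℕ => (w (p + n0)).toReal) := ENNReal.summable_toReal hcon
    have h2 : Summable (fun p : ℕ => (w p).toReal) := (summable_nat_add_iff n0).1 h1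
    apply not_summable_one_div_on_primes
    refine h2.congr fun p => ?_
    rw [hw', Set.indicator_apply]
    by_cases hp : p.Prime
    · rw [if_pos (show p ∈ {p : ℕ | p.Prime} from hp), if_pos hp, ENNReal.toReal_ofReal (by positivity)]
    · rw [if_neg (show p ∉ {p : ℕ | p.Prime} from hp), if_neg hp]; rfl
  have hMzero : ∀ M : ℕ, volume {x | x ∈ Set.Icc X0 X ∧ g x ≤ M} = 0 := by
    intro M
    by_contra hcon
    obtain ⟨A, hA⟩ : ∃ A : Set ℝ, A = {x | x ∈ Set.Icc X0 X ∧ g x ≤ M} := ⟨_, rfl⟩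
    rw [← hA] at hcon
    have hAm : MeasurableSet A := by
      rw [hA]; exact measurableSet_Icc.inter (measurableSet_le hgm measurable_const)
    have hAfin : volume A ≠ ⊤ := by
      have : volume A ≤ volume (Set.Icc X0 X) := measure_mono (by rw [hA]; exact fun x hx => hx.1)
      rw [Real.volume_Icc] at this
      exact ne_top_of_le_ne_top ENNReal.ofReal_ne_top this
    obtain ⟨α, hα⟩ : ∃ α, α = (volume A).toReal := ⟨_, rfl⟩
    have hα0 : 0 < α := by rw [hα]; exact ENNReal.toReal_pos hcon hAfin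
    have hAα : volume A = ENNReal.ofReal α := by rw [hα, ENNReal.ofReal_toReal hAfin]
    obtain ⟨n0, hn0⟩ := conv E hE hE0 hEv X0 X (α / 2) hX0 hX (by positivity)
    have h1 : ∀ p ≥ n0, ENNReal.ofReal (α / 2) ≤ volume (A ∩ {x : ℝ | (p:ℝ) * x ∈ F E}) := by
      intro p hp
      have h2 : volume (A \ {x : ℝ | (p:ℝ) * x ∈ F E}) ≤ ENNReal.ofReal (α / 2) := by
        refine le_trans (measure_mono ?_) (hn0 p hp)
        rintro x ⟨hx1, hx2⟩
        rw [hA] at hx1
        exact ⟨hx1.1, hx2⟩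
      have h3 := measure_inter_add_sdiff (μ := volume) A (hpm p)
      have h4 : ENNReal.ofReal (α / 2) + ENNReal.ofReal (α / 2) ≤
          volume (A ∩ {x : ℝ | (p:ℝ) * x ∈ F E}) + ENNReal.ofReal (α / 2) := by
        rw [← ENNReal.ofReal_add (by positivity) (by positivity), add_halves, ← hAα, ← h3]
        gcongr
      exact (ENNReal.add_le_add_iff_right ENNReal.ofReal_ne_top).1 h4
    have h2 : ∫⁻ x in A, g x ≤ M * volume A := by
      calc ∫⁻ x in A, g x ≤ ∫⁻ x in A, (M:ENNReal) := by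
            apply setLIntegral_mono' hAm
            intro x hx
            rw [hA] at hx
            exact hx.2
        _ = M * volume A := by rw [setLIntegral_const]
    have h3 : ∫⁻ x in A, g x = ∑' p : ℕ, w p * volume (A ∩ {x : ℝ | (p:ℝ) * x ∈ F E}) := by
      rw [hg]
      rw [lintegral_tsum fun p => ((measurable_const.indicator (hpm p)).const_mul _).aemeasurable]
      congr 1
      funext p
      rw [lintegral_const_mul _ (measurable_const.indicator (hpm p)), lintegral_indicator (hpm p),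
        Measure.restrict_restrict (hpm p), setLIntegral_const, one_mul, Set.inter_comm]
    have h4 : (⊤:ENNReal) ≤ ∑' p : ℕ, w p * volume (A ∩ {x : ℝ | (p:ℝ) * x ∈ F E}) := by
      calc (⊤:ENNReal) = ENNReal.ofReal (α / 2) * ∑' p : ℕ, w (p + n0) := by
            rw [hwdiv n0, ENNReal.mul_top]
            rw [ne_eq, ENNReal.ofReal_eq_zero]; linarith
        _ = ∑' p : ℕ, ENNReal.ofReal (α / 2) * w (p + n0) := by rw [ENNReal.tsum_mul_left]
        _ ≤ ∑' p : ℕ, w (p + n0) * volume (A ∩ {x : ℝ | ((p + n0 : ℕ):ℝ) * x ∈ F E}) := by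
            apply ENNReal.tsum_le_tsum
            intro p
            rw [mul_comm]
            gcongr
            exact h1 (p + n0) (by omega)
        _ ≤ ∑' p : ℕ, w p * volume (A ∩ {x : ℝ | (p:ℝ) * x ∈ F E}) :=
            ENNReal.tsum_comp_le_tsum_of_injective (add_left_injective n0)
              (fun p : ℕ => w p * volume (A ∩ {x : ℝ | (p:ℝ) * x ∈ F E}))
    rw [← h3] at h4
    have h5 := h4.trans h2
    rw [top_le_iff] at h5
    exact ENNReal.mul_ne_top (ENNReal.natCast_ne_top M) hAfin h5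
  -- conclusion
  refine measure_mono_null ?_ (measure_iUnion_null hMzero)
  rintro x ⟨hx, hs⟩
  rw [Set.mem_iUnion]
  have hfin : g x ≠ ⊤ := by
    rw [hg]
    show ∑' p : ℕ, w p * Set.indicator {x : ℝ | (p:ℝ) * x ∈ F E} (fun _ => (1:ENNReal)) x ≠ ⊤
    have e : (fun p : ℕ => w p * Set.indicator {x : ℝ | (p:ℝ) * x ∈ F E} (fun _ => (1:ENNReal)) x) =
        fun p : ℕ => ENNReal.ofReal (Set.indicator {p : ℕ | p.Prime ∧ (p:ℝ) * x ∈ F E}
          (fun p : ℕ => 1 / (p:ℝ)) p) := by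
      funext p
      rw [hw', Set.indicator_apply, Set.indicator_apply]
      by_cases hp : p.Prime
      · by_cases hpx : (p:ℝ) * x ∈ F E
        · rw [if_pos (show x ∈ {x : ℝ | (p:ℝ) * x ∈ F E} from hpx),
            if_pos (show p ∈ {p : ℕ | p.Prime ∧ (p:ℝ) * x ∈ F E} from ⟨hp, hpx⟩)]
          simp only [if_pos hp, mul_one]
        · rw [if_neg (show x ∉ {x : ℝ | (p:ℝ) * x ∈ F E} from hpx),
            if_neg (show p ∉ {p : ℕ | p.Prime ∧ (p:ℝ) * x ∈ F E} from fun h => hpx h.2)]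
          simp
      · rw [if_neg (show p ∉ {p : ℕ | p.Prime ∧ (p:ℝ) * x ∈ F E} from fun h => hp h.1)]
        simp only [if_neg hp, zero_mul, ENNReal.ofReal_zero]
    rw [e]
    exact hs.tsum_ofReal_ne_top
  obtain ⟨M, hM⟩ := ENNReal.exists_nat_gt hfin
  exact ⟨M, hx, hM.le⟩

end Pool.Agent.KS6_18.HM
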