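import Mathlib

/-!
Intervals `(M, ρ M]` with `≫ M / log M` primes.
-/

set_option autoImplicit false

namespace Pool.Agent.KS6_18.HM

open Finset Filter Topology Chebyshev

/-- the primes in `(M, M']` -/
noncomputable def PI (M M' : ℝ) : Finset ℕ := (Finset.Ioc ⌊M⌋₊ ⌊M'⌋₊).filter Nat.Prime

theorem theta_diff (M M' : ℝ) (hMM : M ≤ M') :
    θ M' - θ M = ∑ p ∈ PI M M', Real.log p := by
  rw [theta_eq_sum_Icc, theta_eq_sum_Icc, PI]
  have h1 : ⌊M⌋₊ ≤ ⌊M'⌋₊ := Nat.floor_mono hMM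
  have h2 : (Finset.Icc 0 ⌊M'⌋₊).filter Nat.Prime =
      (Finset.Icc 0 ⌊M⌋₊).filter Nat.Prime ∪ (Finset.Ioc ⌊M⌋₊ ⌊M'⌋₊).filter Nat.Prime := by
    ext p
    simp only [Finset.mem_filter, Finset.mem_union, Finset.mem_Icc, Finset.mem_Ioc]
    constructor
    · rintro ⟨⟨_, h⟩, hp⟩
      by_cases h' : p ≤ ⌊M⌋₊
      · left; exact ⟨⟨by omega, h'⟩, hp⟩
      · right; exact ⟨⟨by omega, h⟩, hp⟩
    · rintro (⟨⟨_, h⟩, hp⟩ | ⟨⟨h, h'⟩, hp⟩)
      · exact ⟨⟨by omega, by omega⟩, hp⟩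
      · exact ⟨⟨by omega, h'⟩, hp⟩
  have hdisj : Disjoint ((Finset.Icc 0 ⌊M⌋₊).filter Nat.Prime) ((Finset.Ioc ⌊M⌋₊ ⌊M'⌋₊).filter Nat.Prime) := by
    rw [Finset.disjoint_left]
    intro p hp hp'
    simp only [Finset.mem_filter, Finset.mem_Icc, Finset.mem_Ioc] at hp hp'
    omega
  rw [h2, Finset.sum_union hdisj]
  ring

/-- many primes in `(n, 8 n]` -/
theorem theta_eight : ∃ n0 : ℕ, ∀ n ≥ n0, (n:ℝ) ≤ θ (8 * n) - θ n := by
  -- `θ (8 n) ≥ 8 n log 2 - o(n)`, `θ n ≤ n log 4`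
  have h1 : ∀ᶠ y : ℝ in atTop, Real.log (y + 1) + 2 * √y * Real.log y ≤ y / 16 := by
    have a1 : ∀ᶠ y : ℝ in atTop, Real.log y ≤ 1 / 1000 * y ^ ((1:ℝ) / 4) := by
      have h1 := (isLittleO_log_rpow_atTop (show (0:ℝ) < 1 / 4 by norm_num)).bound
        (show (0:ℝ) < 1 / 1000 by norm_num)
      filter_upwards [h1, eventually_ge_atTop 1] with y hy hy1
      rw [Real.norm_eq_abs, Real.norm_eq_abs, abs_of_nonneg (Real.log_nonneg hy1),
        abs_of_nonneg (Real.rpow_nonneg (by linarith) _)] at hy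
      exact hy
    filter_upwards [a1, eventually_ge_atTop 100] with y hy hy1
    have hy0 : (0:ℝ) < y := by linarith
    have b1 : Real.log (y + 1) ≤ Real.log y + 1 := by
      have : Real.log (y + 1) ≤ Real.log (y * 2) := Real.log_le_log (by linarith) (by linarith)
      rw [Real.log_mul hy0.ne' (by norm_num)] at this
      have := Real.log_two_lt_d9
      linarith
    have b2 : y ^ ((1:ℝ) / 4) ≤ √y := by
      rw [Real.sqrt_eq_rpow]
      exact Real.rpow_le_rpow_of_exponent_le (by linarith) (by norm_num)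
    have b3 : √y * √y = y := Real.mul_self_sqrt hy0.le
    have b4 : (10:ℝ) ≤ √y := by
      rw [show (10:ℝ) = √(100) by rw [show (100:ℝ) = 10 ^ 2 by norm_num, Real.sqrt_sq (by norm_num)]]
      exact Real.sqrt_le_sqrt hy1
    have b5 : Real.log y ≤ 1 / 1000 * √y := hy.trans (by gcongr)
    have b6 : √y * Real.log y ≤ √y * (1 / 1000 * √y) := mul_le_mul_of_nonneg_left b5 (by positivity)
    have b7 : √y * (1 / 1000 * √y) = y / 1000 := by
      calc √y * (1 / 1000 * √y) = (√y * √y) / 1000 := by ring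
        _ = y / 1000 := by rw [b3]
    have b8 : √y ≤ y / 10 := by nlinarith
    linarith
  obtain ⟨y0, hy0⟩ := Filter.eventually_atTop.1 h1
  obtain ⟨n0, hn0⟩ := exists_nat_ge (max y0 1)
  refine ⟨n0, fun n hn => ?_⟩
  have hn' : (n0:ℝ) ≤ n := by exact_mod_cast hn
  have hn1 : (1:ℝ) ≤ n := (le_max_right _ _).trans (hn0.trans hn')
  have h2 := theta_ge (8 * n)
  have h3 := hy0 (8 * n) (by have := (le_max_left _ _).trans (hn0.trans hn'); linarith)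
  have h4 := theta_le_log4_mul_x (x := n) (by linarith)
  have h5 : Real.log 4 = 2 * Real.log 2 := by
    rw [show (4:ℝ) = 2 ^ 2 by norm_num, Real.log_pow]; push_cast; ring
  have h6 := Real.log_two_gt_d9
  push_cast at h2
  rw [h5] at h4
  nlinarith

theorem many_primes (ρ : ℝ) (hρ : 1 < ρ) : ∃ c : ℝ, 0 < c ∧ ∀ Y : ℕ, ∃ M : ℝ,
    (Y:ℝ) ≤ M ∧ 3 ≤ M ∧ c * (M / Real.log M) ≤ ((PI M (ρ * M)).card : ℝ) := by
  obtain ⟨n0, hn0⟩ := theta_eight
  have hlρ : 0 < Real.log ρ := Real.log_pos hρ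
  obtain ⟨J, hJ⟩ := exists_nat_gt (Real.log 8 / Real.log ρ)
  have hlog8 : 0 < Real.log 8 := Real.log_pos (by norm_num)
  have hJ0' : (0:ℝ) < J := lt_trans (by positivity) hJ
  have hJ0 : 0 < J := by exact_mod_cast hJ0'
  have hρJ : (8:ℝ) ≤ ρ ^ J := by
    rw [div_lt_iff₀ hlρ] at hJ
    have h1 : Real.log 8 ≤ Real.log (ρ ^ J) := by rw [Real.log_pow]; linarith
    exact (Real.log_le_log_iff (by norm_num) (by positivity)).1 h1
  obtain ⟨c, hc⟩ : ∃ c, c = 1 / (2 * J * ρ ^ J) := ⟨_, rfl⟩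
  refine ⟨c, by rw [hc]; positivity, fun Y => ?_⟩
  obtain ⟨n, hn⟩ : ∃ n : ℕ, max (max n0 Y) 3 ≤ n ∧ ρ ≤ n := by
    obtain ⟨m, hm⟩ := exists_nat_ge ρ
    refine ⟨max (max (max n0 Y) 3) m, le_max_left _ _, hm.trans ?_⟩
    exact_mod_cast le_max_right _ _
  obtain ⟨hn, hnρ⟩ := hn
  have hnn0 : n0 ≤ n := le_trans (le_trans (le_max_left _ _) (le_max_left _ _)) hn
  have hnY : Y ≤ n := le_trans (le_trans (le_max_right _ _) (le_max_left _ _)) hn
  have hn3 : 3 ≤ n := le_trans (le_max_right _ _) hn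
  have hn3' : (3:ℝ) ≤ n := by exact_mod_cast hn3
  have hnY' : (Y:ℝ) ≤ n := by exact_mod_cast hnY
  have h1 := hn0 n hnn0
  -- pigeonhole
  have h2 : θ (8 * n) ≤ θ (ρ ^ J * n) := theta_mono (by gcongr)
  have htel : ∑ i ∈ range J, (θ (ρ ^ (i + 1) * n) - θ (ρ ^ i * n)) = θ (ρ ^ J * n) - θ (ρ ^ 0 * n) :=
    Finset.sum_range_sub (fun i => θ (ρ ^ i * n)) J
  rw [pow_zero, one_mul] at htel
  obtain ⟨i, hi, hi2⟩ : ∃ i ∈ range J, (n:ℝ) / J ≤ θ (ρ ^ (i + 1) * n) - θ (ρ ^ i * n) := by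
    by_contra hcon
    push Not at hcon
    have h3 : ∑ i ∈ range J, (θ (ρ ^ (i + 1) * n) - θ (ρ ^ i * n)) < ∑ i ∈ range J, (n:ℝ) / J :=
      Finset.sum_lt_sum_of_nonempty ⟨0, Finset.mem_range.2 hJ0⟩ hcon
    rw [Finset.sum_const, Finset.card_range, nsmul_eq_mul, mul_div_cancel₀ _ hJ0'.ne'] at h3
    linarith
  obtain ⟨M, hM⟩ : ∃ M, M = ρ ^ i * n := ⟨_, rfl⟩
  have hρi : (1:ℝ) ≤ ρ ^ i := one_le_pow₀ hρ.le
  have hMn : (n:ℝ) ≤ M := by rw [hM]; nlinarith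
  have hM3 : (3:ℝ) ≤ M := by linarith
  have hMup : M ≤ ρ ^ J * n := by
    rw [hM]
    have : ρ ^ i ≤ ρ ^ J := pow_le_pow_right₀ hρ.le (Finset.mem_range.1 hi).le
    gcongr
  refine ⟨M, by linarith, hM3, ?_⟩
  have hM' : ρ ^ (i + 1) * n = ρ * M := by rw [hM]; ring
  rw [hM', ← hM, theta_diff M (ρ * M) (by nlinarith)] at hi2
  have hlogM : 0 < Real.log M := Real.log_pos (by linarith)
  have h4 : ∑ p ∈ PI M (ρ * M), Real.log p ≤ ((PI M (ρ * M)).card : ℝ) * (2 * Real.log M) := by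
    rw [← nsmul_eq_mul, ← Finset.sum_const]
    apply Finset.sum_le_sum
    intro p hp
    rw [PI, Finset.mem_filter, Finset.mem_Ioc] at hp
    have hpM : (p:ℝ) ≤ ρ * M := (Nat.le_floor_iff (by positivity)).1 hp.1.2
    have hp0 : (0:ℝ) < p := by exact_mod_cast hp.2.pos
    calc Real.log p ≤ Real.log (ρ * M) := Real.log_le_log hp0 hpM
      _ ≤ Real.log (M * M) := Real.log_le_log (by positivity) (by gcongr; linarith)
      _ = 2 * Real.log M := by rw [Real.log_mul (by linarith) (by linarith)]; ring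
  have h5 : (n:ℝ) / J ≤ ((PI M (ρ * M)).card : ℝ) * (2 * Real.log M) := hi2.trans h4
  have h6 : M / (J * ρ ^ J) ≤ (n:ℝ) / J := by
    rw [div_le_div_iff₀ (by positivity) hJ0']
    calc M * J ≤ (ρ ^ J * n) * J := by gcongr
      _ = n * (J * ρ ^ J) := by ring
  have h7 : c * (M / Real.log M) = (M / (J * ρ ^ J)) / (2 * Real.log M) := by
    rw [hc]; field_simp
  rw [h7, div_le_iff₀ (by positivity)]
  linarith

end Pool.Agent.KS6_18.HM
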