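import Pool.Agent.KS6_18.HM.Primes
import Pool.Graph.R_pool_sql_team_seeded_1acbe0a2.Y762.HD.Main

/-!
One stage of the construction, with a positive proportion of all primes in an interval.
-/

set_option autoImplicit false

namespace Pool.Agent.KS6_18.HM

open Finset Filter Topology MeasureTheory
open Pool.Agent.W755.Haight
open Pool.Agent.Y762.HD (phases2 vol_R)

/-- a colouring of a finite set with `K` colours, each colour used at least `card / K` times -/
theorem colouring (S : Finset ℕ) (K : ℕ) (hK : 0 < K) : ∃ β : ℕ → ℕ, (∀ p, p ∉ S → β p = 0) ∧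
    ∀ k < K, S.card / K ≤ (S.filter (fun p => β p = k)).card := by
  classical
  obtain ⟨e⟩ : Nonempty (Fin S.card ≃ S) := ⟨S.equivFin.symm⟩
  refine ⟨fun p => if h : p ∈ S then (e.symm ⟨p, h⟩ : ℕ) % K else 0, fun p hp => by
    simp only [dif_neg hp], fun k hk => ?_⟩
  have h1 : ∀ i ∈ Finset.range (S.card / K), i * K + k < S.card := by
    intro i hi
    rw [Finset.mem_range] at hi
    have h2 : (i + 1) * K ≤ (S.card / K) * K := Nat.mul_le_mul_right K hi
    have h3 : (S.card / K) * K ≤ S.card := Nat.div_mul_le_self _ _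
    have h4 : (i + 1) * K = i * K + K := by ring
    omega
  have h2 : ((Finset.range (S.card / K)).attach.image (fun i =>
      ((e ⟨i.1 * K + k, h1 i.1 i.2⟩ : S) : ℕ))).card = S.card / K := by
    rw [Finset.card_image_of_injective, Finset.card_attach, Finset.card_range]
    intro i j hij
    have h3 := Subtype.ext hij
    have h4 := e.injective h3
    have h5 : i.1 * K + k = j.1 * K + k := by
      have := congrArg Fin.val h4
      exact this
    have h6 : i.1 = j.1 := Nat.eq_of_mul_eq_mul_right hK (by omega)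
    exact Subtype.ext h6
  rw [← h2]
  apply Finset.card_le_card
  intro p hp
  rw [Finset.mem_image] at hp
  obtain ⟨i, _, rfl⟩ := hp
  rw [Finset.mem_filter]
  refine ⟨(e _).2, ?_⟩
  simp only [dif_pos (e _).2, Subtype.coe_eta, Equiv.symm_apply_apply]
  rw [Nat.mul_comm, Nat.mul_add_mod, Nat.mod_eq_of_lt hk]

theorem stage' (a δ₀ : ℝ) (ha : 0 < a) (hδ₀ : 0 < δ₀) (ρ : ℝ) (hρ : 1 < ρ) :
    ∃ c : ℝ, 0 < c ∧ ∀ (Y : ℕ) (Xm : ℝ), 0 < Xm →
    ∃ (U : Set ℝ) (B : ℝ) (N : ℕ), Y ≤ N ∧ 3 ≤ N ∧ IsOpen U ∧ U ⊆ Set.Iio B ∧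
      (∀ X : ℝ, 0 < X → volume (Set.Iic X ∩ U) ≤ ENNReal.ofReal (δ₀ * X)) ∧
      ∀ x : ℝ, 0 < x → x ≤ Xm → ∃ Q : Finset ℕ, c * (N / Real.log N) ≤ Q.card ∧
        ∀ n ∈ Q, n.Prime ∧ n ≤ N ∧
        ∀ r : ℕ, 0 < r → ∀ z : ℝ, a ≤ z → (n : ℝ) * x = r * z → z ∈ U ∨
          ∃ (s : ℕ) (q : ℝ), 0 < s ∧ 1 / ρ < q ∧ q < ρ ∧ z = q * (x / s) := by
  classical
  have hρ0 : 0 < ρ := by linarith
  set δ : ℝ := min (1 / 2) (δ₀ / 8) with hδ
  have hδ0 : 0 < δ := by rw [hδ]; positivity
  obtain ⟨K, hK⟩ := exists_nat_gt (2 / δ)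
  have hK0 : (0 : ℝ) < K := lt_trans (by positivity) hK
  have hK0' : 0 < K := by exact_mod_cast hK0
  have hKδ : 1 / (K : ℝ) < δ / 2 := by
    rw [div_lt_iff₀ hδ0] at hK
    rw [div_lt_div_iff₀ hK0 (by norm_num)]
    linarith
  obtain ⟨c, hc0, hcl⟩ := many_primes ρ hρ
  -- `y / log y → ∞`
  have hbig : ∀ᶠ y : ℝ in atTop, 2 * K / c * Real.log y ≤ y := by
    have h1 := Real.isLittleO_log_id_atTop.bound (show 0 < c / (2 * K) by positivity)
    filter_upwards [h1, eventually_ge_atTop 1] with y hy hy1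
    rw [Real.norm_eq_abs, Real.norm_eq_abs, abs_of_nonneg (Real.log_nonneg hy1), id,
      abs_of_nonneg (by linarith : (0:ℝ) ≤ y)] at hy
    calc 2 * K / c * Real.log y ≤ 2 * K / c * (c / (2 * K) * y) := by gcongr
      _ = y := by field_simp
  obtain ⟨y0, hy0⟩ := Filter.eventually_atTop.1 hbig
  refine ⟨c / (2 * K * ρ), by positivity, fun Y Xm hXm => ?_⟩
  obtain ⟨Y', hY'⟩ := exists_nat_ge (max (Y:ℝ) y0)
  obtain ⟨M, hMY, hM3, hMc⟩ := hcl Y'
  have hMY0 : (Y:ℝ) ≤ M := (le_max_left _ _).trans (hY'.trans hMY)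
  have hMy0 : y0 ≤ M := (le_max_right _ _).trans (hY'.trans hMY)
  have hM0 : 0 < M := by linarith
  have hlogM : 0 < Real.log M := Real.log_pos (by linarith)
  obtain ⟨S, hS⟩ : ∃ S, S = PI M (ρ * M) := ⟨_, rfl⟩
  rw [← hS] at hMc
  have hSmem : ∀ p ∈ S, p.Prime ∧ M < p ∧ (p:ℝ) ≤ ρ * M := by
    intro p hp
    rw [hS, PI, Finset.mem_filter, Finset.mem_Ioc] at hp
    exact ⟨hp.2, (Nat.floor_lt hM0.le).1 hp.1.1, (Nat.le_floor_iff (by positivity)).1 hp.1.2⟩
  obtain ⟨col, hcol0, hcol⟩ := colouring S K hK0'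
  obtain ⟨β, hβ⟩ : ∃ β : ℕ → ℝ, β = fun p => (col p : ℝ) / K := ⟨_, rfl⟩
  have hβ0 : ∀ p, p ∉ S → β p = 0 := by
    intro p hp
    rw [hβ]
    show (col p : ℝ) / K = 0
    rw [hcol0 p hp]; simp
  obtain ⟨NN, hNN⟩ : ∃ NN, NN = ⌊ρ * M⌋₊ := ⟨_, rfl⟩
  have hNNle : (NN:ℝ) ≤ ρ * M := by rw [hNN]; exact Nat.floor_le (by positivity)
  have hScard : (2 * K : ℝ) ≤ S.card := by
    have h1 := hy0 M hMy0
    have h2 : 2 * K ≤ c * (M / Real.log M) := by
      rw [mul_div_assoc', le_div_iff₀ hlogM]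
      have h3 : c * (2 * K / c * Real.log M) ≤ c * M := mul_le_mul_of_nonneg_left h1 hc0.le
      have h4 : c * (2 * K / c * Real.log M) = 2 * K * Real.log M := by field_simp
      linarith
    linarith
  have hSne : S.Nonempty := by
    rw [← Finset.card_pos]
    have : (0:ℝ) < S.card := by linarith
    exact_mod_cast this
  obtain ⟨p0, hp0⟩ := hSne
  have hNNM : M ≤ NN := by
    have h1 := hSmem p0 hp0
    have h2 : p0 ≤ NN := by rw [hNN]; exact Nat.le_floor h1.2.2
    have h3 : (p0:ℝ) ≤ NN := by exact_mod_cast h2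
    linarith
  -- bound for all `r` and all `z`
  obtain ⟨B, hB⟩ : ∃ B : ℝ, B = ρ * M * Xm + 1 := ⟨_, rfl⟩
  obtain ⟨N, hN⟩ := exists_nat_gt (max (ρ * M + 1) (ρ * M * Xm / a))
  have hN1 : ρ * M + 1 < N := lt_of_le_of_lt (le_max_left _ _) hN
  have hN2 : ρ * M * Xm / a < N := lt_of_le_of_lt (le_max_right _ _) hN
  obtain ⟨t, ht, ht1, ht2⟩ := phases2 N β (δ / 4) (by positivity) 1
  refine ⟨R t δ ∩ Set.Iio B, B, NN, ?_, ?_, (isOpen_R t δ).inter isOpen_Iio, Set.inter_subset_right, ?_, ?_⟩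
  · have : (Y:ℝ) ≤ NN := hMY0.trans hNNM
    exact_mod_cast this
  · have : (3:ℝ) ≤ NN := hM3.trans hNNM
    exact_mod_cast this
  · intro X hX
    refine (measure_mono ?_).trans ((vol_R t δ X ht.le hδ0 (min_le_left _ _) hX).trans ?_)
    · rintro z ⟨h1, h2, _⟩; exact ⟨h1, h2⟩
    · apply ENNReal.ofReal_le_ofReal
      have : δ ≤ δ₀ / 8 := min_le_right _ _
      have : 8 * δ ≤ δ₀ := by linarith
      gcongr
  · intro x hx hxX
    set u : ℝ := t * Real.log x with hu
    set m : ℤ := ⌊K * u⌋ with hm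
    set k : ℕ := ((-m) % (K : ℤ)).toNat with hk
    have hKz : (0 : ℤ) < K := by exact_mod_cast hK0'
    have hkk : ((k : ℕ) : ℤ) = (-m) % (K : ℤ) := by
      rw [hk]; exact Int.toNat_of_nonneg (Int.emod_nonneg _ hKz.ne')
    have hkK : k < K := by
      have : (k : ℤ) < K := by rw [hkk]; exact Int.emod_lt_of_pos _ hKz
      exact_mod_cast this
    -- m + k = K * q
    obtain ⟨q, hq⟩ : ∃ q : ℤ, m + k = K * q := by
      refine ⟨-((-m) / K), ?_⟩
      rw [hkk]
      have := Int.mul_ediv_add_emod (-m) K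
      linarith
    refine ⟨S.filter (fun p => col p = k), ?_, ?_⟩
    · -- the number of primes
      have h1 := hcol k hkK
      have h2 : (S.card : ℝ) / (2 * K) ≤ ((S.card / K : ℕ) : ℝ) := by
        have h3 : S.card < K * (S.card / K + 1) := Nat.lt_mul_div_succ _ hK0'
        have h4 : (S.card : ℝ) < K * (((S.card / K : ℕ) : ℝ) + 1) := by exact_mod_cast h3
        have h5 : (2:ℝ) ≤ S.card / K := by rw [le_div_iff₀ hK0]; exact hScard
        have h6 : (S.card : ℝ) / K < ((S.card / K : ℕ) : ℝ) + 1 := by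
          rw [div_lt_iff₀ hK0]; linarith
        have h7 : (S.card : ℝ) / (2 * K) = (S.card : ℝ) / K / 2 := by field_simp
        rw [h7]
        linarith
      have h3 : ((S.card / K : ℕ) : ℝ) ≤ ((S.filter (fun p => col p = k)).card : ℝ) := by
        exact_mod_cast h1
      refine le_trans ?_ (h2.trans h3)
      have h4 : (NN:ℝ) / Real.log NN ≤ ρ * (M / Real.log M) := by
        have h5 : Real.log M ≤ Real.log NN := Real.log_le_log hM0 hNNM
        rw [mul_div_assoc']
        exact div_le_div₀ (by positivity) hNNle hlogM h5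
      calc c / (2 * K * ρ) * (NN / Real.log NN) ≤ c / (2 * K * ρ) * (ρ * (M / Real.log M)) := by
            gcongr
        _ = (c * (M / Real.log M)) / (2 * K) := by field_simp
        _ ≤ (S.card : ℝ) / (2 * K) := by gcongr
    · intro n hn
      rw [Finset.mem_filter] at hn
      obtain ⟨hnS, hnk⟩ := hn
      obtain ⟨hnp, hnM, hnρ⟩ := hSmem n hnS
      refine ⟨hnp, ?_, ?_⟩
      · rw [hNN]; exact Nat.le_floor hnρ
      intro r hr z hz hrz
      have hβn : β n = k / K := by rw [hβ]; show (col n : ℝ) / K = _; rw [hnk]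
      have hzpos : 0 < z := by linarith
      have hrpos : (0:ℝ) < r := by exact_mod_cast hr
      have hr1 : (1:ℝ) ≤ r := by exact_mod_cast hr
      have hnpos : (0:ℝ) < n := by exact_mod_cast hnp.pos
      have hprod : (n : ℝ) * x ≤ ρ * M * Xm := by
        calc (n:ℝ) * x ≤ (ρ * M) * x := by gcongr
          _ ≤ (ρ * M) * Xm := by gcongr
      by_cases hdiv : ∃ p ∈ S, p ∣ r
      · right
        obtain ⟨p, hpS, s, rfl⟩ := hdiv
        obtain ⟨hpp, hpM, hpρ⟩ := hSmem p hpS
        have hs : 0 < s := Nat.pos_of_ne_zero (by rintro rfl; simp at hr)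
        have hspos : (0:ℝ) < s := by exact_mod_cast hs
        have hppos : (0:ℝ) < p := by exact_mod_cast hpp.pos
        refine ⟨s, (n : ℝ) / p, hs, ?_, ?_, ?_⟩
        · rw [div_lt_div_iff₀ hρ0 hppos]
          calc 1 * (p : ℝ) = p := one_mul _
            _ ≤ ρ * M := hpρ
            _ < ρ * n := by gcongr
            _ = n * ρ := mul_comm _ _
        · rw [div_lt_iff₀ hppos]
          calc (n : ℝ) ≤ ρ * M := hnρ
            _ < ρ * p := by gcongr
        · push_cast at hrz
          field_simp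
          linarith
      · left
        push Not at hdiv
        have hrN : r < N := by
          have h1 : (r : ℝ) * a ≤ ρ * M * Xm := by
            calc (r : ℝ) * a ≤ r * z := by gcongr
              _ = n * x := hrz.symm
              _ ≤ _ := hprod
          have h2 : (r : ℝ) ≤ ρ * M * Xm / a := by
            rw [le_div_iff₀ ha]; exact h1
          have h3 : (r : ℝ) < N := lt_of_le_of_lt h2 hN2
          exact_mod_cast h3
        have hnN : n < N := by
          have : (n:ℝ) < N := by linarith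
          exact_mod_cast this
        have hzB : z < B := by
          have h1 : z ≤ r * z := by nlinarith
          rw [hB]
          linarith
        obtain ⟨n1, hn1'⟩ := ht1 n hnp hnN
        rw [hβn] at hn1'
        obtain ⟨n2, hn2⟩ := ht2 r hr hrN (by
          intro p hp hpr
          apply hβ0
          intro hpS
          exact hdiv p hpS hpr)
        refine ⟨?_, hzB⟩
        rw [mem_R]
        refine ⟨hzpos, n1 + q - n2, ?_⟩
        have hlog : Real.log z = Real.log n + Real.log x - Real.log r := by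
          have h1 : Real.log ((n : ℝ) * x) = Real.log ((r : ℝ) * z) := by rw [hrz]
          rw [Real.log_mul hnpos.ne' hx.ne', Real.log_mul hrpos.ne' hzpos.ne'] at h1
          linarith
        have hq' : (m : ℝ) + k = K * q := by exact_mod_cast hq
        have hfl : (m : ℝ) ≤ K * u := Int.floor_le _
        have hfl2 : K * u < m + 1 := Int.lt_floor_add_one _
        -- 0 ≤ u + k/K - q < 1/K
        have h1 : u + k / K - q = (K * u - m) / K := by
          field_simp
          linarith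
        have h2 : 0 ≤ u + k / K - q := by
          rw [h1]; apply div_nonneg _ hK0.le; linarith
        have h3 : u + k / K - q ≤ 1 / K := by
          rw [h1]
          apply div_le_div_of_nonneg_right _ hK0.le
          linarith
        have e : t * Real.log z - ((n1 + q - n2 : ℤ) : ℝ) =
            (t * Real.log n - k / K - n1) + (u + k / K - q) - (t * Real.log r - n2) := by
          rw [hlog, hu]; push_cast; ring
        rw [e]
        rw [abs_lt] at hn1' hn2 ⊢
        constructor <;> linarith [hn1'.1, hn1'.2, hn2.1, hn2.2]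

end Pool.Agent.KS6_18.HM
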